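import Mathlib
import Pool.Agent.Helper19.BK.RamseyExplicit

set_option autoImplicit false

/-!
MP_3a87f6_co, Q1: there are Ramsey schemes for infinitely many numbers of colors. Explicitly: on
the field with `2^(4^(n+1))` elements the cosets of the subgroup of nonzero `m`-th powers,
`m = 3 (2^4+1) (2^16+1) ... (2^(4^n)+1)`, are the color classes of a Ramsey scheme in `m` colors.
-/

namespace Pool.Agent.Results.MP_3a87f6_co.PowerCosetSchemes

/-- A Ramsey scheme in `m` colors on `U`. Relations are subsets of `U × U` (`SetRel U U`);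
`SetRel.id` is the identity relation, `SetRel.inv` the converse and `SetRel.comp` the relational
composition. The first four fields say that `Id, R 0, ..., R (m-1)` is a partition of `U × U`. -/
structure IsRamseyScheme {U : Type} {m : ℕ} (R : Fin m → SetRel U U) : Prop where
  nonempty : ∀ i, (R i).Nonempty
  disjoint_id : ∀ i, Disjoint (SetRel.id : SetRel U U) (R i)
  disjoint : ∀ i j, i ≠ j → Disjoint (R i) (R j)
  cover : (SetRel.id : SetRel U U) ∪ (⋃ i, R i) = Set.univ
  symm : ∀ i, (R i).inv = R i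
  comp_self : ∀ i, (R i).comp (R i) = (R i)ᶜ
  comp_of_ne : ∀ i j, i ≠ j → (R i).comp (R j) = (SetRel.id : SetRel U U)ᶜ

/-- The number of colors `3 (2^4+1) (2^16+1) ... (2^(4^n)+1)`. -/
def numColors (n : ℕ) : ℕ := 3 * ∏ k ∈ Finset.Icc 1 n, (2 ^ (4 ^ k) + 1)

/-- The subgroup of the nonzero `m`-th powers of a field. -/
def powers (F : Type) [Field F] (m : ℕ) : Subgroup Fˣ := (powMonoidHom m : Fˣ →* Fˣ).range

/-- The relation of all pairs whose difference lies in the coset `C` of the nonzero `m`-th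
powers. -/
def cosetRel (F : Type) [Field F] (m : ℕ) (C : Fˣ ⧸ powers F m) : SetRel F F :=
  {p | ∃ u : Fˣ, (u : F) = p.1 - p.2 ∧ (QuotientGroup.mk u : Fˣ ⧸ powers F m) = C}

open Pool.Agent.Helper19.BK.Ramsey

lemma numColors_eq (n : ℕ) : numColors n = numCol n := rfl

section

variable {F : Type} [Field F] [Finite F]

lemma card_units (n : ℕ) (hF : Nat.card F = 2 ^ (4 ^ (n + 1))) :
    Nat.card Fˣ = ordH n * numColors n := by
  haveI := Fintype.ofFinite F
  obtain ⟨-, hm, -, -⟩ := good_field n hF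
  rw [numColors_eq, hm]
  classical
  rw [Nat.card_eq_fintype_card, Nat.card_eq_fintype_card, Fintype.card_units]

lemma ordH_pos (n : ℕ) : 0 < ordH n := by unfold ordH; positivity

lemma powers_eq (n : ℕ) (hF : Nat.card F = 2 ^ (4 ^ (n + 1))) :
    powers F (numColors n) = (powMonoidHom (ordH n) : Fˣ →* Fˣ).ker := by
  have hc := card_units n hF
  have hm : 0 < numColors n := numCol_pos n
  apply Subgroup.eq_of_le_of_card_ge
  · rintro _ ⟨x, rfl⟩
    rw [MonoidHom.mem_ker, powMonoidHom_apply, powMonoidHom_apply, ← pow_mul, mul_comm, ← hc]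
    exact pow_card_eq_one'
  · unfold powers
    rw [IsCyclic.card_powMonoidHom_ker, IsCyclic.card_powMonoidHom_range, hc,
      Nat.gcd_mul_right_left, Nat.gcd_mul_left_left, Nat.mul_div_cancel _ hm]

lemma index_powers (n : ℕ) (hF : Nat.card F = 2 ^ (4 ^ (n + 1))) :
    Nat.card (Fˣ ⧸ powers F (numColors n)) = numColors n := by
  have hc := card_units n hF
  rw [← Subgroup.index_eq_card]
  unfold powers
  rw [IsCyclic.index_powMonoidHom_range, hc, Nat.gcd_mul_left_left]

lemma mk_eq_iff (n : ℕ) (hF : Nat.card F = 2 ^ (4 ^ (n + 1))) (u v : Fˣ) :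
    (QuotientGroup.mk u : Fˣ ⧸ powers F (numColors n)) = QuotientGroup.mk v ↔
      (u : F) ^ ordH n = (v : F) ^ ordH n := by
  rw [QuotientGroup.eq, powers_eq n hF, MonoidHom.mem_ker, powMonoidHom_apply, mul_pow, inv_pow,
    inv_mul_eq_one, Units.ext_iff]
  simp

lemma mem_iff (n : ℕ) (hF : Nat.card F = 2 ^ (4 ^ (n + 1))) (v : Fˣ) (x y : F) :
    (x, y) ∈ cosetRel F (numColors n) (QuotientGroup.mk v) ↔
      (x + y) ^ ordH n = (v : F) ^ ordH n := by
  obtain ⟨hadd, -, -, -⟩ := good_field n hF
  have hsub : x - y = x + y := by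
    rw [sub_eq_iff_eq_add, add_assoc, hadd, add_zero]
  constructor
  · rintro ⟨u, hu, hc⟩
    rw [mk_eq_iff n hF] at hc
    rw [← hc, hu, hsub]
  · intro h
    have h0 : x + y ≠ 0 := by
      intro h0
      rw [h0, zero_pow (ordH_pos n).ne'] at h
      exact pow_ne_zero _ v.ne_zero h.symm
    refine ⟨Units.mk0 (x + y) h0, by simp [hsub], ?_⟩
    rw [mk_eq_iff n hF]
    simpa using h

theorem scheme (n : ℕ) (hF : Nat.card F = 2 ^ (4 ^ (n + 1)))
    (c : Fin (numColors n) ≃ Fˣ ⧸ powers F (numColors n)) :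
    IsRamseyScheme fun i => cosetRel F (numColors n) (c i) := by
  obtain ⟨hadd, -, -, hsf⟩ := good_field n hF
  have hh := ordH_pos n
  obtain ⟨v, hv⟩ : ∃ v : Fin (numColors n) → Fˣ, ∀ i, c i = QuotientGroup.mk (v i) :=
    ⟨fun i => (c i).out, fun i => (QuotientGroup.out_eq' _).symm⟩
  have hmem : ∀ i (x y : F), (x, y) ∈ cosetRel F (numColors n) (c i) ↔
      (x + y) ^ ordH n = (v i : F) ^ ordH n := by
    intro i x y
    rw [hv]
    exact mem_iff n hF _ _ _
  have hne : ∀ i j, i ≠ j → (v i : F) ^ ordH n ≠ (v j : F) ^ ordH n := by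
    intro i j hij h
    apply hij
    apply c.injective
    rw [hv, hv, mk_eq_iff n hF]
    exact h
  have hx0 : ∀ i (x : F), x ^ ordH n = (v i : F) ^ ordH n → x ≠ 0 := by
    rintro i x h rfl
    rw [zero_pow hh.ne'] at h
    exact pow_ne_zero _ (v i).ne_zero h.symm
  have hcol : ∀ x : F, x ≠ 0 → ∃ i, x ^ ordH n = (v i : F) ^ ordH n := by
    intro x hx
    refine ⟨c.symm (QuotientGroup.mk (Units.mk0 x hx)), ?_⟩
    have h1 := hv (c.symm (QuotientGroup.mk (Units.mk0 x hx)))
    rw [Equiv.apply_symm_apply, mk_eq_iff n hF] at h1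
    simpa using h1
  have hcomp : ∀ i j (x z : F), (x, z) ∈ (cosetRel F (numColors n) (c i)).comp
      (cosetRel F (numColors n) (c j)) ↔
      ∃ y, (x + y) ^ ordH n = (v i : F) ^ ordH n ∧ (y + z) ^ ordH n = (v j : F) ^ ordH n := by
    intro i j x z
    rw [SetRel.mem_comp]
    exact exists_congr fun y => and_congr (hmem _ _ _) (hmem _ _ _)
  have hadd0 : ∀ x z : F, x + z = 0 ↔ x = z := by
    intro x z
    constructor
    · intro h
      have h2 : x + (z + z) = z := by rw [← add_assoc, h, zero_add]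
      rwa [hadd, add_zero] at h2
    · rintro rfl
      exact hadd _
  -- the main covering statement
  have hex : ∀ i j (x z : F), x ≠ z → ¬ ((v i : F) ^ ordH n = (x + z) ^ ordH n ∧
      (v j : F) ^ ordH n = (x + z) ^ ordH n) →
      ∃ y, (x + y) ^ ordH n = (v i : F) ^ ordH n ∧ (y + z) ^ ordH n = (v j : F) ^ ordH n := by
    intro i j x z hxz hnot
    have hw : x + z ≠ 0 := fun h => hxz ((hadd0 x z).1 h)
    obtain ⟨t, ht1, ht2⟩ := two_term n hF (v i : F) (v j : F) (x + z) (v i).ne_zero (v j).ne_zero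
      hw hnot
    refine ⟨x + t, ?_, ?_⟩
    · rw [← add_assoc, hadd, zero_add, ht1]
    · rw [show x + t + z = x + z + t by ring, ht2]
  refine ⟨?_, ?_, ?_, ?_, ?_, ?_, ?_⟩
  · intro i
    exact ⟨((v i : F), 0), (hmem i _ _).2 (by rw [add_zero])⟩
  · intro i
    rw [Set.disjoint_left]
    rintro ⟨x, y⟩ h1 h2
    have h1' : x = y := h1
    subst h1'
    have h3 : (x + x) ^ ordH n = (v i : F) ^ ordH n := (hmem i _ _).1 h2
    exact hx0 i _ h3 (hadd _)
  · intro i j hij
    rw [Set.disjoint_left]
    rintro ⟨x, y⟩ h1 h2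
    have h3 : (x + y) ^ ordH n = (v i : F) ^ ordH n := (hmem i _ _).1 h1
    have h4 : (x + y) ^ ordH n = (v j : F) ^ ordH n := (hmem j _ _).1 h2
    exact hne i j hij (h3.symm.trans h4)
  · rw [Set.eq_univ_iff_forall]
    rintro ⟨x, y⟩
    by_cases hxy : x = y
    · exact Or.inl hxy
    · right
      obtain ⟨i, hi⟩ := hcol (x + y) (fun h => hxy ((hadd0 x y).1 h))
      exact Set.mem_iUnion.2 ⟨i, (hmem i _ _).2 hi⟩
  · intro i
    ext ⟨x, y⟩
    rw [SetRel.mem_inv]
    exact (hmem i _ _).trans (by rw [add_comm]; exact (hmem i _ _).symm)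
  · intro i
    ext ⟨x, z⟩
    refine (hcomp i i x z).trans ?_
    rw [Set.mem_compl_iff]
    refine Iff.trans ?_ (not_congr (hmem i x z)).symm
    constructor
    · rintro ⟨y, hy1, hy2⟩ hxz
      have hw := hx0 i _ hxz
      have hwh : (x + z) ^ ordH n ≠ 0 := pow_ne_zero _ hw
      refine hsf ((x + y) / (x + z)) ?_ ?_
      · rw [div_pow, hy1, hxz, div_self (by rw [← hxz]; exact hwh)]
      · have h1 : 1 + (x + y) / (x + z) = (y + z) / (x + z) := by
          rw [eq_div_iff hw, add_mul, div_mul_cancel₀ _ hw, one_mul,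
            show x + z + (x + y) = (x + x) + (y + z) by ring, hadd, zero_add]
        rw [h1, div_pow, hy2, hxz, div_self (by rw [← hxz]; exact hwh)]
    · intro hnot
      by_cases hxz : x = z
      · subst hxz
        refine ⟨x + v i, ?_, ?_⟩
        · rw [← add_assoc, hadd, zero_add]
        · rw [show x + (v i : F) + x = (x + x) + v i by ring, hadd, zero_add]
      · exact hex i i x z hxz (fun h => hnot h.1.symm)
  · intro i j hij
    ext ⟨x, z⟩
    refine (hcomp i j x z).trans ?_
    rw [Set.mem_compl_iff, SetRel.mem_id]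
    constructor
    · rintro ⟨y, hy1, hy2⟩ rfl
      rw [add_comm] at hy2
      exact hne i j hij (hy1.symm.trans hy2)
    · intro hxz
      exact hex i j x z hxz (fun h => hne i j hij (h.1.trans h.2.symm))

end

/-- Ramsey schemes exist for infinitely many numbers of colors, explicitly for the members
`3 (2^4+1) (2^16+1) ... (2^(4^n)+1)` of a strictly increasing sequence: for every `n`, with
`m = numColors n`, there is a finite field `F` with `2^(4^(n+1))` elements in whose
multiplicative group the subgroup of `m`-th powers has exactly `m` cosets, and for every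
numbering of these cosets the relations `x - y lies in the i-th coset` form a Ramsey scheme in
`m` colors on `F`. -/
theorem result :
    StrictMono numColors ∧
    ∀ n : ℕ, ∃ (F : Type) (_ : Field F) (_ : Finite F), Nat.card F = 2 ^ (4 ^ (n + 1)) ∧
      Nat.card (Fˣ ⧸ powers F (numColors n)) = numColors n ∧
      ∀ c : Fin (numColors n) ≃ Fˣ ⧸ powers F (numColors n),
        IsRamseyScheme fun i => cosetRel F (numColors n) (c i) := by
  refine ⟨numCol_strictMono, fun n => ?_⟩
  have hcard : Nat.card (GaloisField 2 (4 ^ (n + 1))) = 2 ^ (4 ^ (n + 1)) :=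
    GaloisField.card 2 _ (by positivity)
  haveI : Finite (GaloisField 2 (4 ^ (n + 1))) :=
    Nat.finite_of_card_ne_zero (by rw [hcard]; positivity)
  exact ⟨GaloisField 2 (4 ^ (n + 1)), inferInstance, inferInstance, hcard,
    index_powers n hcard, scheme n hcard⟩

end Pool.Agent.Results.MP_3a87f6_co.PowerCosetSchemes
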